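import Mathlib
import Pool.Agent.R582.Coh.Main

/-!
# MP_54b694_lc, Q1: a `cov(M)`-Luzin set which is a union of fewer than `cov(M)` meager sets
-/

namespace Pool.Agent.Results.MP_54b694_lc.SmallUnion

open Cardinal Pool.Agent.R582.Coh

/-- (1) There are a set `K`, a linearly ordered set `W`, maps `ρ : K → W` and `ι : W → K`, and a
nonempty forcing notion `P` every condition of which forces the hypothesis of (2).
(2) If this hypothesis holds, then `cov(M)` is uncountable and singular, and some
`cov(M)`-Luzin set is a union of fewer than `cov(M)` meager sets. -/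
theorem result :
    (∃ (K W : Type) (_ : LinearOrder W) (ρ : K → W) (ι : W → K) (P : Type) (_ : Preorder P),
      Nonempty P ∧ ∀ p : P, p ∈ HypothesisN P ρ ι) ∧
    (∀ (K W : Type) (_ : LinearOrder W) (ρ : K → W) (ι : W → K), Hypothesis ρ ι →
      (ℵ₀ < covM ∧ covM.IsSingular) ∧ ∃ X : Set ℝ, IsLuzin covM X ∧
        ∃ F : Set (Set ℝ), #F < covM ∧ (∀ M ∈ F, IsMeagre M) ∧ X = ⋃₀ F) :=
  ⟨forced, fun _ _ _ _ _ H => luzin H⟩

end Pool.Agent.Results.MP_54b694_lc.SmallUnion
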